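import Pool.Agent.K.MP_fef8d9_co.C1
import Pool.Agent.K.MP_fef8d9_co.C2
import Pool.Agent.K.MP_fef8d9_co.C3
import Pool.Agent.K.MP_fef8d9_co.C4
import Pool.Agent.K.MP_fef8d9_co.C5
import Pool.Agent.K.MP_fef8d9_co.C6
import Pool.Agent.K.MP_fef8d9_co.C7
import Pool.Agent.K.MP_fef8d9_co.C8

-- part Pool.Agent.P.MP_fef8d9_co.All
section

namespace Pool.Agent.P.MP_fef8d9_co

theorem allF : AllF 17 5 [] :=
  (AllF.step (AllF.step (AllF.step (AllF.step (AllF.step ch_0 ch_4096) (AllF.step ch_8192 ch_12288)) (AllF.step (AllF.step ch_16384 ch_20480) (AllF.step ch_24576 ch_28672))) (AllF.step (AllF.step (AllF.step ch_32768 ch_36864) (AllF.step ch_40960 ch_45056)) (AllF.step (AllF.step ch_49152 ch_53248) (AllF.step ch_57344 ch_61440)))) (AllF.step (AllF.step (AllF.step (AllF.step ch_65536 ch_69632) (AllF.step ch_73728 ch_77824)) (AllF.step (AllF.step ch_81920 ch_86016) (AllF.step ch_90112 ch_94208))) (AllF.step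 (AllF.step (AllF.step ch_98304 ch_102400) (AllF.step ch_106496 ch_110592)) (AllF.step (AllF.step ch_114688 ch_118784) (AllF.step ch_122880 ch_126976)))))

end Pool.Agent.P.MP_fef8d9_co
end

-- part Pool.Agent.P.MP_fef8d9_co.Main
section

namespace Pool.Agent.P.MP_fef8d9_co

theorem c_symm' : ∀ u : Fin 17, ∀ v : Fin 17, (cn u).testBit v = (cn v).testBit u := by
  decide +kernel

theorem c_refl' : ∀ u : Fin 17, (cn u).testBit u = true := by decide +kernel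

theorem c_symm (u v : ℕ) (hu : u < 17) (hv : v < 17) (h : c u v) : c v u := by
  have := c_symm' ⟨u, hu⟩ ⟨v, hv⟩
  unfold c at *
  simp only at this
  rw [← this]; exact h

/-- The counterexample graph. -/
def Gr : SimpleGraph (Fin 17) where
  Adj u v := u ≠ v ∧ c u v
  symm := ⟨fun u v h => ⟨h.1.symm, c_symm _ _ u.2 v.2 h.2⟩⟩
  loopless := ⟨fun _ h => h.1 rfl⟩

theorem adj_iff (u v : Fin 17) : (u = v ∨ Gr.Adj u v) ↔ c v u := by
  constructor
  · rintro (rfl | h)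
    · exact c_refl' u
    · exact c_symm _ _ u.2 v.2 h.2
  · intro h
    by_cases e : u = v
    · exact Or.inl e
    · exact Or.inr ⟨e, c_symm _ _ v.2 u.2 h⟩

def irr (W S : Finset (Fin 17)) : Prop :=
  S ⊆ W ∧ ∀ v ∈ S, ∃ u ∈ W, (u = v ∨ Gr.Adj u v) ∧ ∀ w ∈ S, w ≠ v → ¬ (u = w ∨ Gr.Adj u w)

def irSet (W : Finset (Fin 17)) : Set ℕ :=
  {n : ℕ | ∃ S : Finset (Fin 17), irr W S ∧ (∀ x ∈ W, x ∉ S → ¬ irr W (insert x S)) ∧ S.card = n}

def gamSet (W : Finset (Fin 17)) : Set ℕ :=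
  {n : ℕ | ∃ D : Finset (Fin 17), D ⊆ W ∧ (∀ x ∈ W, x ∈ D ∨ ∃ d ∈ D, Gr.Adj x d) ∧ D.card = n}

theorem gamSet_nonempty (W : Finset (Fin 17)) : (gamSet W).Nonempty :=
  ⟨W.card, W, subset_rfl, fun _ hx => Or.inl hx, rfl⟩

theorem gam_mem_irSet (W : Finset (Fin 17)) : sInf (gamSet W) ∈ irSet W := by
  obtain ⟨D, hDW, hD, hc⟩ := Nat.sInf_mem (gamSet_nonempty W)
  refine ⟨D, ⟨hDW, fun v hv => ?_⟩, fun x hx hxD hirr => ?_, hc⟩
  · by_contra hcon
    have : (D.erase v).card ∈ gamSet W := by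
      refine ⟨D.erase v, (Finset.erase_subset _ _).trans hDW, fun x hx => ?_, rfl⟩
      by_contra hx'
      apply hcon
      have h2 : ∀ w ∈ D, w ≠ v → ¬ (x = w ∨ Gr.Adj x w) := by
        rintro w hw hne (rfl | ha)
        · exact hx' (Or.inl (Finset.mem_erase.2 ⟨hne, hw⟩))
        · exact hx' (Or.inr ⟨w, Finset.mem_erase.2 ⟨hne, hw⟩, ha⟩)
      refine ⟨x, hx, ?_, h2⟩
      rcases hD x hx with h | ⟨d, hd, ha⟩
      · by_contra h3
        exact h2 x h (fun e => h3 (Or.inl e)) (Or.inl rfl)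
      · by_contra h3
        exact h2 d hd (fun e => h3 (Or.inr (e ▸ ha))) (Or.inr ha)
    have h1 := Nat.sInf_le this
    have h2 := Finset.card_erase_add_one hv
    omega
  · obtain ⟨u, hu, -, h2⟩ := hirr.2 x (Finset.mem_insert_self _ _)
    rcases hD u hu with h | ⟨d, hd, ha⟩
    · exact h2 u (Finset.mem_insert_of_mem h) (fun e => hxD (e ▸ h)) (Or.inl rfl)
    · exact h2 d (Finset.mem_insert_of_mem hd) (fun e => hxD (e ▸ hd)) (Or.inr ha)

theorem irr_iff (W S : Finset (Fin 17)) (hSW : S ⊆ W) (L : List ℕ)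
    (hL : ∀ x, x ∈ L ↔ ∃ y ∈ S, (y : ℕ) = x) :
    irr W S ↔ Irr (fun v => ∃ y ∈ W, (y : ℕ) = v) L := by
  constructor
  · intro h x hx
    obtain ⟨v, hv, rfl⟩ := (hL x).1 hx
    obtain ⟨u, hu, h1, h2⟩ := h.2 v hv
    refine ⟨u, ⟨u, hu, rfl⟩, (adj_iff u v).1 h1, fun y hy hne hc => ?_⟩
    obtain ⟨w, hw, rfl⟩ := (hL y).1 hy
    exact h2 w hw (fun e => hne (congrArg _ e)) ((adj_iff u w).2 hc)
  · intro h
    refine ⟨hSW, fun v hv => ?_⟩
    obtain ⟨b, ⟨u, hu, rfl⟩, h1, h2⟩ := h v ((hL v).2 ⟨v, hv, rfl⟩)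
    refine ⟨u, hu, (adj_iff u v).2 h1, fun w hw hne hc => ?_⟩
    exact h2 w ((hL w).2 ⟨w, hw, rfl⟩) (fun e => hne (Fin.ext e)) ((adj_iff u w).1 hc)

theorem small (W : Finset (Fin 17)) (h : sInf (irSet W) ≤ 5) :
    sInf (irSet W) = sInf (gamSet W) := by
  refine le_antisymm (Nat.sInf_le (gam_mem_irSet W)) ?_
  obtain ⟨S, hS, hM, hc⟩ := Nat.sInf_mem ⟨_, gam_mem_irSet W⟩
  have hcard : (S.image Fin.val).card = S.card :=
    Finset.card_image_of_injective _ Fin.val_injective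
  obtain ⟨L, hL, hl, hF⟩ := allF (S.image Fin.val) (fun x hx => by
    obtain ⟨y, -, rfl⟩ := Finset.mem_image.1 hx
    exact y.2) (by omega)
  have hL' : ∀ x, x ∈ L ↔ ∃ y ∈ S, (y : ℕ) = x := fun x => by
    rw [hL]; simp
  obtain ⟨D, hD, hDW, hdom⟩ := hF (fun v => ∃ y ∈ W, (y : ℕ) = v)
    (by rintro v ⟨y, -, rfl⟩; exact y.2)
    (fun v hv => by
      obtain ⟨y, hy, rfl⟩ := (hL' v).1 hv
      exact ⟨y, hS.1 hy, rfl⟩)
    ((irr_iff W S hS.1 L hL').1 hS)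
    (by
      rintro v ⟨y, hy, rfl⟩ hv hI
      have hyS : y ∉ S := fun q => hv ((hL' y).2 ⟨y, q, rfl⟩)
      refine hM y hy hyS ((irr_iff W (insert y S) (Finset.insert_subset hy hS.1) (y :: L) ?_).2 hI)
      intro x
      rw [List.mem_cons, hL']
      simp [eq_comm])
  let D' : Finset (Fin 17) := W.filter fun y => (y : ℕ) ∈ D
  have hD' : D'.card ≤ D.card := by
    refine Finset.card_le_card_of_injOn Fin.val (fun y hy => ?_) Fin.val_injective.injOn
    exact (Finset.mem_filter.1 hy).2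
  have : D'.card ∈ gamSet W := by
    refine ⟨D', Finset.filter_subset _ _, fun x hx => ?_, rfl⟩
    obtain ⟨d, hd, hcd⟩ := hdom x ⟨x, hx, rfl⟩
    obtain ⟨y, hy, rfl⟩ := hDW d hd
    have hy' : y ∈ D' := Finset.mem_filter.2 ⟨hy, hd⟩
    rcases (adj_iff x y).2 hcd with rfl | ha
    · exact Or.inl hy'
    · exact Or.inr ⟨y, hy', ha⟩
  have h3 := Nat.sInf_le this
  simp only [List.length_nil] at hl
  omega

theorem nd : noDom 200 5 0 (cn 16) = true := by decide +kernel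

theorem gam_univ : 7 ≤ sInf (gamSet Finset.univ) := by
  obtain ⟨D, -, hD, hc⟩ := Nat.sInf_mem (gamSet_nonempty Finset.univ)
  by_contra hlt
  have hdom : ∀ v : Fin 17, ∃ d ∈ D, c d v := fun v => by
    rcases hD v (Finset.mem_univ _) with h | ⟨d, hd, ha⟩
    · exact ⟨v, h, c_refl' v⟩
    · exact ⟨d, hd, (adj_iff v d).1 (Or.inr ha)⟩
  refine noDom_spec c_symm nd (D.image Fin.val) ?_ ?_ (by simp) ?_ ?_
  · have := Finset.card_image_le (s := D) (f := Fin.val)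
    omega
  · intro d hd
    obtain ⟨y, -, rfl⟩ := Finset.mem_image.1 hd
    exact y.2
  · intro v hv
    obtain ⟨d, hd, h⟩ := hdom ⟨v, hv⟩
    exact Or.inr ⟨d, Finset.mem_image_of_mem _ hd, h⟩
  · obtain ⟨d, hd, h⟩ := hdom 16
    exact ⟨d, Finset.mem_image_of_mem _ hd, c_symm _ _ d.2 (by decide) h⟩

theorem irrB (S : Finset (Fin 17)) : irr Finset.univ S ↔
    ∀ v ∈ S, ∃ u : Fin 17, (cn v).testBit u = true ∧
      ∀ w ∈ S, w ≠ v → ¬ (cn w).testBit u = true := by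
  unfold irr
  simp only [adj_iff, Finset.subset_univ, true_and, Finset.mem_univ, c]

theorem ir_univ : sInf (irSet Finset.univ) ≤ 6 := by
  refine Nat.sInf_le ⟨{0, 1, 2, 3, 4, 5}, ?_, ?_, by decide⟩
  · rw [irrB]; decide +kernel
  · simp only [irrB]; decide +kernel

end Pool.Agent.P.MP_fef8d9_co
end
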